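import Mathlib
import Pool.Agent.H.MP_086516_nt.A

namespace Pool.Agent.Results.MP_086516_nt.Full

open Polynomial Finset Pool.Agent.H.MP_086516_nt

theorem result (k : ℕ) (hk : 1 ≤ k) : ∃ A : Finset (Fin k.totient → ℤ),
    (∀ a, a ∈ A ↔
      (∑ j, (a j : ℂ) * Complex.exp (2 * Real.pi * Complex.I / k) ^ (j : ℕ)) ^ k = 1) ∧
    ∃ (x₀ : ℂ) (x : Fin k.totient → ℂ), ‖x₀‖ = 1 ∧ (∀ j, ‖x j‖ = 1) ∧
      x₀ + ∑ a ∈ A, ∏ j, x j ^ a j = 0 := by
  have z := Complex.isPrimitiveRoot_exp k (by omega)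
  generalize Complex.exp (2 * Real.pi * Complex.I / k) = ζ at *
  have : NeZero k := ⟨by omega⟩
  have mo := cyclotomic.monic k ℤ
  have dg : ∀ P : ℤ[X], (P %ₘ cyclotomic k ℤ).natDegree < k.totient := fun P => by
    rw [← natDegree_cyclotomic k ℤ]
    refine natDegree_modByMonic_lt P mo fun e => ?_
    have := natDegree_cyclotomic k ℤ
    rw [e, natDegree_one] at this
    exact (Nat.totient_pos.2 hk).ne this
  let a : ℕ → Fin k.totient → ℤ := fun i j => (X ^ i %ₘ cyclotomic k ℤ).coeff j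
  have r : aeval ζ (cyclotomic k ℤ) = 0 := by
    rw [cyclotomic_eq_minpoly z hk]; exact minpoly.aeval ℤ ζ
  have e1 : ∀ i, ∑ j, (a i j : ℂ) * ζ ^ (j : ℕ) = ζ ^ i := fun i => by
    have := aeval_modByMonic_eq_self_of_root (p := X ^ i) r
    rw [aeval_eq_sum_range' (dg _), sum_range] at this
    simpa [a] using this
  have e2 : ∀ b c : Fin k.totient → ℤ,
      ∑ j, (b j : ℂ) * ζ ^ (j : ℕ) = ∑ j, (c j : ℂ) * ζ ^ (j : ℕ) → b = c := fun b c h => by
    have d : cyclotomic k ℤ ∣ ∑ j : Fin k.totient, C (b j - c j) * X ^ (j : ℕ) := by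
      rw [cyclotomic_eq_minpoly z hk]
      refine minpoly.isIntegrallyClosed_dvd (z.isIntegral hk) ?_
      simp [sub_mul, h]
    have := eq_zero_of_dvd_of_degree_lt d (by rw [degree_cyclotomic]; exact degree_sum_fin_lt _)
    ext j
    have := congrArg (fun P => coeff P j) this
    simp only [finsetSum_coeff, coeff_C_mul, coeff_X_pow, coeff_zero, Fin.val_inj, mul_ite,
      mul_one, mul_zero, sum_ite_eq, mem_univ, if_true] at this
    linarith
  refine ⟨(range k).image a, fun b => ⟨fun h => ?_, fun h => ?_⟩, ?_⟩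
  · obtain ⟨i, -, rfl⟩ := mem_image.1 h
    rw [e1, ← pow_mul, mul_comm, pow_mul, z.pow_eq_one, one_pow]
  · obtain ⟨i, hi, e⟩ := z.eq_pow_of_pow_eq_one h
    exact mem_image.2 ⟨i, mem_range.2 hi, e2 _ _ (by rw [e1, e])⟩
  obtain ⟨g, θ, h1, h2⟩ : ∃ (g : ℕ → ℤ) (θ : ℝ), (∀ f, Lg g (cyclotomic k ℤ * f) = 0) ∧
      ‖∑ i ∈ range k, Complex.exp (g i * (θ * Complex.I))‖ ≤ 1 := by
    rcases hk.eq_or_lt with rfl | h
    · exact ⟨0, 0, fun f => by simp [Lg, Polynomial.sum], by simp⟩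
    · obtain ⟨g, θ, h1, h2⟩ := vanish k h
      exact ⟨g, θ, h1, by simp [h2]⟩
  obtain ⟨t, ht⟩ := intermediate_value_univ θ 0
    (f := fun t : ℝ => ‖∑ i ∈ range k, Complex.exp (g i * (t * Complex.I))‖) (by fun_prop)
    (show (1 : ℝ) ∈ Set.Icc _ _ from ⟨h2, by simpa using hk⟩)
  refine ⟨-∑ i ∈ range k, Complex.exp (g i * (t * Complex.I)),
    fun j => Complex.exp (g j * (t * Complex.I)), by rw [norm_neg]; exact ht, fun j => ?_, ?_⟩
  · simp only [← mul_assoc]; exact_mod_cast Complex.norm_exp_ofReal_mul_I (g j * t)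
  · rw [sum_image fun i hi j hj e => z.pow_inj (mem_range.1 hi) (mem_range.1 hj)
      (by rw [← e1, ← e1, e]), neg_add_eq_zero]
    refine sum_congr rfl fun i _ => ?_
    simp only [← Complex.exp_int_mul, ← Complex.exp_sum, ← mul_assoc, ← sum_mul]
    have e3 := congrArg (Lg g) (modByMonic_add_div (X ^ i) (cyclotomic k ℤ))
    rw [map_add, h1, add_zero, Lg_pow, as_sum_range' _ _ (dg (X ^ i)), map_sum, sum_range] at e3
    simp only [Lg_mono] at e3
    rw [← e3]; push_cast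
    simp only [a, mul_comm]

end Pool.Agent.Results.MP_086516_nt.Full
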